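import Mathlib
import Pool.Agent.H387R2.UDefs

/-! Vectors of consecutive gaps with the right order of frequency: combinatorial part (helper527). -/

set_option autoImplicit false

namespace Pool.Agent.R527.LV

open Finset Pool.Agent.H387R2

/-- partial sums of a gap vector -/
def ps {k : ℕ} (h : Fin k → ℕ) (i : Fin (k + 1)) : ℕ :=
  ∑ j : Fin k, if (j : ℕ) < (i : ℕ) then h j else 0

/-- the pattern of a gap vector -/
def pat {k : ℕ} (h : Fin k → ℕ) : Finset ℕ := (univ : Finset (Fin (k + 1))).image (ps h)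

theorem ps_succ {k : ℕ} (h : Fin k → ℕ) (i : Fin k) :
    ps h i.succ = ps h i.castSucc + h i := by
  unfold ps
  have h1 : ∀ j : Fin k, (if (j : ℕ) < ((i.succ : Fin (k + 1)) : ℕ) then h j else 0) =
      (if (j : ℕ) < ((i.castSucc : Fin (k + 1)) : ℕ) then h j else 0) + (if j = i then h j else 0) := by
    intro j
    simp only [Fin.val_succ, Fin.val_castSucc]
    by_cases e : j = i
    · subst e; simp
    · have : (j : ℕ) ≠ i := fun h => e (Fin.ext h)
      by_cases e2 : (j : ℕ) < i
      · simp [e, e2, Nat.lt_succ_of_lt e2]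
      · have e3 : ¬ (j : ℕ) < i + 1 := by omega
        simp [e, e2, e3]
  rw [sum_congr rfl fun j _ => h1 j, sum_add_distrib]
  simp

theorem ps_zero {k : ℕ} (h : Fin k → ℕ) : ps h 0 = 0 := by
  unfold ps; simp

theorem ps_strictMono {k : ℕ} {h : Fin k → ℕ} (hh : ∀ i, 1 ≤ h i) : StrictMono (ps h) := by
  rw [Fin.strictMono_iff_lt_succ]
  intro i
  rw [ps_succ]
  have := hh i
  omega

theorem ps_inj {k : ℕ} {h h' : Fin k → ℕ} (e : ps h = ps h') : h = h' := by
  funext i
  have h1 := ps_succ h i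
  have h2 := ps_succ h' i
  rw [e] at h1
  omega

theorem pat_card {k : ℕ} {h : Fin k → ℕ} (hh : ∀ i, 1 ≤ h i) : (pat h).card = k + 1 := by
  unfold pat
  rw [card_image_of_injective _ (ps_strictMono hh).injective, card_univ, Fintype.card_fin]

theorem zero_mem_pat {k : ℕ} (h : Fin k → ℕ) : 0 ∈ pat h := by
  unfold pat
  rw [mem_image]
  exact ⟨0, mem_univ _, ps_zero h⟩

theorem ps_le {k : ℕ} {h : Fin k → ℕ} {m : ℕ} (hh : ∀ i, h i ≤ m) (i : Fin (k + 1)) :
    ps h i ≤ k * m := by
  unfold ps
  calc ∑ j : Fin k, (if (j : ℕ) < (i : ℕ) then h j else 0) ≤ ∑ _j : Fin k, m := by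
        apply sum_le_sum
        intro j _
        split_ifs
        · exact hh j
        · exact Nat.zero_le _
    _ = k * m := by simp

theorem pat_le {k : ℕ} {h : Fin k → ℕ} {m : ℕ} (hh : ∀ i, h i ≤ m) {t : ℕ} (ht : t ∈ pat h) :
    t ≤ k * m := by
  unfold pat at ht
  rw [mem_image] at ht
  obtain ⟨i, _, rfl⟩ := ht
  exact ps_le hh i

theorem shift_inj {k : ℕ} {h h' : Fin k → ℕ} {s s' : ℕ} (hh : ∀ i, 1 ≤ h i) (hh' : ∀ i, 1 ≤ h' i)
    (e : (pat h).image (fun t => t + s) = (pat h').image (fun t => t + s')) : s = s' ∧ h = h' := by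
  unfold pat at e
  rw [image_image, image_image] at e
  have m1 : StrictMono ((fun t => t + s) ∘ ps h) := fun a b hab => by
    have := ps_strictMono hh hab
    simp only [Function.comp_apply]
    omega
  have m2 : StrictMono ((fun t => t + s') ∘ ps h') := fun a b hab => by
    have := ps_strictMono hh' hab
    simp only [Function.comp_apply]
    omega
  have e2 : Set.range ((fun t => t + s) ∘ ps h) = Set.range ((fun t => t + s') ∘ ps h') := by
    have := congrArg (fun F : Finset ℕ => (F : Set ℕ)) e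
    simpa [Function.comp_def] using this
  have e3 := (StrictMono.range_inj m1 m2).1 e2
  have e4 : s = s' := by
    have := congrFun e3 0
    simp only [Function.comp_apply, ps_zero] at this
    omega
  refine ⟨e4, ?_⟩
  apply ps_inj
  funext i
  have := congrFun e3 i
  simp only [Function.comp_apply] at this
  omega

theorem nuT_shift (T : Finset ℕ) (x0 p : ℕ) (hp : 0 < p) :
    Uni.nuT (T.image (fun t => t + x0)) p = Uni.nuT T p := by
  classical
  unfold Uni.nuT
  have h1 : (T.image (fun t => t + x0)).image (· % p) = (T.image (· % p)).image (fun r => (r + x0) % p) := by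
    rw [image_image, image_image]
    apply image_congr
    intro t _
    simp only [Function.comp_apply, Nat.mod_add_mod]
  rw [h1]
  apply card_image_of_injOn
  intro r hr r' hr' h
  rw [mem_coe, mem_image] at hr hr'
  obtain ⟨t, _, rfl⟩ := hr
  obtain ⟨t', _, rfl⟩ := hr'
  simp only at h ⊢
  have h2 : t % p + x0 ≡ t' % p + x0 [MOD p] := h
  have h3 : t % p ≡ t' % p [MOD p] := Nat.ModEq.add_right_cancel' x0 h2
  exact Nat.ModEq.eq_of_lt_of_lt h3 (Nat.mod_lt _ hp) (Nat.mod_lt _ hp)

theorem CT_shift (T : Finset ℕ) (x0 : ℕ) : Uni.CT (T.image (fun t => t + x0)) = Uni.CT T := by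
  classical
  unfold Uni.CT
  apply tprod_congr
  intro p
  unfold Uni.locT
  rw [nuT_shift T x0 p p.2.pos, card_image_of_injective _ (add_left_injective x0)]

/-- the gap vectors with entries in `[1, m]` -/
def box (k m : ℕ) : Finset (Fin k → ℕ) := Fintype.piFinset (fun _ => Icc 1 m)

theorem mem_box {k m : ℕ} {h : Fin k → ℕ} : h ∈ box k m ↔ ∀ i, 1 ≤ h i ∧ h i ≤ m := by
  unfold box
  simp [Fintype.mem_piFinset]

theorem card_box (k m : ℕ) : (box k m).card = m ^ k := by
  unfold box
  simp

/-- second moment of the singular series over gap vectors -/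
theorem mom (k : ℕ) (C : ℝ)
    (hm : ∀ H : ℕ, ∑ T ∈ (range H).powersetCard (k + 1), Uni.CT T ^ 2 ≤ C * (H : ℝ) ^ (k + 1)) (m : ℕ) :
    ∑ h ∈ box k m, Uni.CT (pat h) ^ 2 ≤ C * 2 ^ (k + 1) * ((k * m + 1 : ℕ) : ℝ) ^ k := by
  classical
  set H := k * m + 1 with hH
  have h1 : ∑ q ∈ range H ×ˢ box k m, Uni.CT (pat q.2) ^ 2 ≤
      ∑ T ∈ (range (2 * H)).powersetCard (k + 1), Uni.CT T ^ 2 := by
    have h2 : ∑ q ∈ range H ×ˢ box k m, Uni.CT (pat q.2) ^ 2 =
        ∑ T ∈ (range H ×ˢ box k m).image (fun q => (pat q.2).image (fun t => t + q.1)), Uni.CT T ^ 2 := by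
      rw [sum_image]
      · apply sum_congr rfl
        intro q _
        rw [CT_shift]
      · intro q hq q' hq' e
        rw [mem_coe, mem_product, mem_box] at hq hq'
        obtain ⟨e1, e2⟩ := shift_inj (fun i => (hq.2 i).1) (fun i => (hq'.2 i).1) e
        exact Prod.ext e1 e2
    rw [h2]
    apply sum_le_sum_of_subset_of_nonneg
    · intro T hT
      rw [mem_image] at hT
      obtain ⟨q, hq, rfl⟩ := hT
      rw [mem_product, mem_range, mem_box] at hq
      rw [mem_powersetCard]
      constructor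
      · intro t ht
        rw [mem_image] at ht
        obtain ⟨u, hu, rfl⟩ := ht
        have := pat_le (fun i => (hq.2 i).2) hu
        rw [mem_range]
        omega
      · rw [card_image_of_injective _ (add_left_injective q.1), pat_card (fun i => (hq.2 i).1)]
    · intro T _ _
      positivity
  have h3 : ∑ q ∈ range H ×ˢ box k m, Uni.CT (pat q.2) ^ 2 =
      (H : ℝ) * ∑ h ∈ box k m, Uni.CT (pat h) ^ 2 := by
    rw [sum_product]
    simp [sum_const]
  rw [h3] at h1
  have h4 := h1.trans (hm (2 * H))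
  have hH0 : (0 : ℝ) < H := by rw [hH]; positivity
  have h5 : C * ((2 * H : ℕ) : ℝ) ^ (k + 1) = (H : ℝ) * (C * 2 ^ (k + 1) * (H : ℝ) ^ k) := by
    push_cast
    ring
  rw [h5] at h4
  exact le_of_mul_le_mul_left h4 hH0

end Pool.Agent.R527.LV
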