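import Mathlib
import Pool.Agent.R527.LV.Core

/-! Vectors of consecutive gaps with the right order of frequency: counting part (helper527). -/

set_option autoImplicit false

namespace Pool.Agent.R527.LV

open Finset Filter Topology Pool.Agent.H387R2

/-- the `j`-th prime, `P 0 = 2` -/
noncomputable def P (j : ℕ) : ℕ := Nat.nth Nat.Prime j

theorem P_prime (j : ℕ) : (P j).Prime := Nat.prime_nth_prime j

theorem P_strictMono : StrictMono P := Nat.nth_strictMono Nat.infinite_setOfPred_prime

theorem le_P (j : ℕ) : j ≤ P j := P_strictMono.le_apply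

theorem P_le_of_lt {j x : ℕ} (h : j < Nat.primeCounting x) : P j ≤ x := by
  have h1 : P j < x + 1 := by
    unfold P
    apply Nat.nth_lt_of_lt_count
    simpa [Nat.primeCounting, Nat.primeCounting'] using h
  omega

theorem pi_low (k : ℕ) : ∀ᶠ x : ℕ in atTop,
    (x : ℝ) / (4 * Real.log x) ≤ ((Nat.primeCounting x - k : ℕ) : ℝ) := by
  have tN : Tendsto (fun N : ℕ => (N : ℝ)) atTop atTop := tendsto_natCast_atTop_atTop
  have tL : Tendsto (fun N : ℕ => Real.log (N : ℝ)) atTop atTop := Real.tendsto_log_atTop.comp tN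
  have h0 : ∀ᶠ x : ℕ in atTop, Real.log (x : ℝ) ≤ (1 / (16 * (k + 1)) : ℝ) * x := by
    have := (Real.isLittleO_log_id_atTop.comp_tendsto tN).bound
      (show (0 : ℝ) < 1 / (16 * (k + 1)) by positivity)
    filter_upwards [this, eventually_ge_atTop 1] with x hx h1
    have hx1 : (1 : ℝ) ≤ x := by exact_mod_cast h1
    have hl : 0 ≤ Real.log (x : ℝ) := Real.log_nonneg hx1
    simp only [Function.comp_apply, id, Real.norm_eq_abs] at hx
    rwa [abs_of_nonneg hl, abs_of_nonneg (by linarith : (0 : ℝ) ≤ x)] at hx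
  filter_upwards [h0, tL.eventually_ge_atTop 1, eventually_ge_atTop 2] with x h1 h2 h3
  have h4 := Chebyshev.pi_ge x
  have hx2 : (2 : ℝ) ≤ x := by exact_mod_cast h3
  set L := Real.log (x : ℝ) with hL
  have hL0 : 0 < L := by linarith
  have hk0 : (0 : ℝ) ≤ k := Nat.cast_nonneg _
  have h5 : Real.log ((x : ℝ) + 1) ≤ 2 * L := by
    rw [hL]
    have : 2 * Real.log (x : ℝ) = Real.log ((x : ℝ) ^ 2) := by
      rw [Real.log_pow]; norm_num
    rw [this]
    apply Real.log_le_log (by linarith)
    nlinarith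
  have h6 : (0.69 : ℝ) ≤ Real.log 2 := by
    have := Real.log_two_gt_d9
    linarith
  have h7 : (k + 1) * L ≤ x / 16 := by
    have : (k + 1 : ℝ) * L ≤ (k + 1) * (1 / (16 * (k + 1)) * x) :=
      mul_le_mul_of_nonneg_left h1 (by linarith)
    have e : (k + 1 : ℝ) * (1 / (16 * (k + 1)) * x) = x / 16 := by
      field_simp
    linarith
  have hLx : L ≤ x / 16 := by nlinarith
  have h8 : (x : ℝ) / (2 * L) ≤ (Nat.primeCounting x : ℝ) := by
    refine le_trans ?_ h4
    rw [div_le_div_iff₀ (by positivity) hL0]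
    have : (x : ℝ) * 0.69 ≤ x * Real.log 2 := mul_le_mul_of_nonneg_left h6 (by linarith)
    nlinarith
  have h9 : (Nat.primeCounting x : ℝ) - k ≤ ((Nat.primeCounting x - k : ℕ) : ℝ) := by
    have : Nat.primeCounting x ≤ (Nat.primeCounting x - k) + k := by omega
    have : (Nat.primeCounting x : ℝ) ≤ ((Nat.primeCounting x - k : ℕ) : ℝ) + k := by exact_mod_cast this
    linarith
  refine le_trans ?_ h9
  have h10 : (k : ℝ) ≤ x / (4 * L) := by
    rw [le_div_iff₀ (by positivity)]
    nlinarith
  have h11 : (x : ℝ) / (2 * L) = x / (4 * L) + x / (4 * L) := by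
    field_simp; norm_num
  linarith

/-- few long gaps -/
theorem few_long (N i x : ℕ) (T : ℝ) (hT : 0 < T) (hx : P (N + i) ≤ x) :
    (((range N).filter (fun j => T < (P (j + i + 1) : ℝ) - P (j + i))).card : ℝ) ≤ x / T := by
  rw [le_div_iff₀ hT]
  have h1 : (((range N).filter (fun j => T < (P (j + i + 1) : ℝ) - P (j + i))).card : ℝ) * T ≤
      ∑ j ∈ (range N).filter (fun j => T < (P (j + i + 1) : ℝ) - P (j + i)),
        ((P (j + i + 1) : ℝ) - P (j + i)) := by
    rw [← nsmul_eq_mul]
    apply card_nsmul_le_sum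
    intro j hj
    exact (mem_filter.1 hj).2.le
  have h2 : ∑ j ∈ (range N).filter (fun j => T < (P (j + i + 1) : ℝ) - P (j + i)),
        ((P (j + i + 1) : ℝ) - P (j + i)) ≤ ∑ j ∈ range N, ((P (j + i + 1) : ℝ) - P (j + i)) := by
    apply sum_le_sum_of_subset_of_nonneg (filter_subset _ _)
    intro j _ _
    have : P (j + i) < P (j + i + 1) := P_strictMono (by omega)
    have : (P (j + i) : ℝ) < P (j + i + 1) := by exact_mod_cast this
    linarith
  have h3 : ∑ j ∈ range N, ((P (j + i + 1) : ℝ) - P (j + i)) = (P (N + i) : ℝ) - P (0 + i) := by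
    have := sum_range_sub (fun j => (P (j + i) : ℝ)) N
    rw [← this]
    apply sum_congr rfl
    intro j _
    have e : j + 1 + i = j + i + 1 := by ring
    simp only [e]
  have h4 : (P (N + i) : ℝ) ≤ x := by exact_mod_cast hx
  have h5 : (0 : ℝ) ≤ P (0 + i) := Nat.cast_nonneg _
  linarith

/-- the number of `n` for which `h` is the vector of the `k` gaps following the `n`-th prime -/
noncomputable def cnt {k : ℕ} (x : ℕ) (h : Fin k → ℕ) : ℕ :=
  ((range (Nat.primeCounting x)).filter (fun n => P (n + k) ≤ x ∧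
    ∀ i : Fin k, P (n + i + 1) = P (n + i) + h i)).card

theorem P_add_ps {k : ℕ} {h : Fin k → ℕ} {n : ℕ} (hn : ∀ i : Fin k, P (n + i + 1) = P (n + i) + h i)
    (i : Fin (k + 1)) : P n + ps h i = P (n + i) := by
  induction i using Fin.induction with
  | zero => simp [ps_zero]
  | succ i ih =>
    rw [ps_succ, ← add_assoc, ih]
    have := hn i
    simp only [Fin.val_castSucc, Fin.val_succ]
    rw [← this, add_assoc]

/-- the sieve count dominates -/
theorem le_piT {k : ℕ} {x : ℕ} {h : Fin k → ℕ} (G : Finset ℕ)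
    (hG : ∀ n ∈ G, k + 1 < P n ∧ P (n + k) ≤ x ∧ ∀ i : Fin k, P (n + i + 1) = P (n + i) + h i) :
    G.card ≤ Uni.piT (pat h) x := by
  classical
  rcases G.eq_empty_or_nonempty with rfl | ⟨n₀, hn₀⟩
  · simp
  have hadm : Uni.Adm (pat h) := by
    intro p hp
    by_contra hcon
    rw [not_lt] at hcon
    obtain ⟨h1, h2, h3⟩ := hG n₀ hn₀
    have h4 : (pat h).image (· % p) ⊆ range p := by
      intro r hr
      rw [mem_image] at hr
      obtain ⟨t, _, rfl⟩ := hr
      exact mem_range.2 (Nat.mod_lt _ hp.pos)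
    have h5 : (pat h).image (· % p) = range p := by
      apply eq_of_subset_of_card_le h4
      rw [card_range]
      exact hcon
    have h6 : p ≤ k + 1 := by
      calc p ≤ ((pat h).image (· % p)).card := hcon
        _ ≤ (pat h).card := card_image_le
        _ ≤ (univ : Finset (Fin (k + 1))).card := card_image_le
        _ = k + 1 := by simp
    -- the class of `- P n₀`
    have h7 : (p - P n₀ % p) % p ∈ range p := mem_range.2 (Nat.mod_lt _ hp.pos)
    rw [← h5, mem_image] at h7
    obtain ⟨t, ht, hte⟩ := h7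
    unfold pat at ht
    rw [mem_image] at ht
    obtain ⟨i, _, rfl⟩ := ht
    have h8 : (P n₀ + ps h i) % p = 0 := by
      have a1 : (P n₀ + ps h i) % p = (P n₀ % p + ps h i % p) % p := Nat.add_mod _ _ _
      rw [a1]
      rw [hte, Nat.add_mod_mod]
      have a2 : P n₀ % p ≤ p := (Nat.mod_lt _ hp.pos).le
      rw [Nat.add_sub_of_le a2, Nat.mod_self]
    rw [P_add_ps h3 i] at h8
    have h9 : p ∣ P (n₀ + i) := Nat.dvd_of_mod_eq_zero h8
    have h10 := (Nat.prime_dvd_prime_iff_eq hp (P_prime _)).1 h9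
    have h11 : P n₀ ≤ P (n₀ + i) := P_strictMono.monotone (by omega)
    omega
  unfold Uni.piT
  rw [if_pos hadm]
  have hs : sInf ((pat h : Finset ℕ) : Set ℕ) = 0 := by
    apply Nat.sInf_eq_zero.2
    left
    exact_mod_cast zero_mem_pat h
  rw [hs]
  apply card_le_card_of_injOn P
  · intro n hn
    obtain ⟨h1, h2, h3⟩ := hG n hn
    rw [mem_coe, mem_filter, mem_Icc]
    have h4 : P n ≤ P (n + k) := P_strictMono.monotone (by omega)
    refine ⟨⟨(P_prime n).pos, by omega⟩, ?_⟩
    intro t ht
    unfold pat at ht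
    rw [mem_image] at ht
    obtain ⟨i, _, rfl⟩ := ht
    rw [Nat.sub_zero, P_add_ps h3 i]
    exact P_prime _
  · exact P_strictMono.injective.injOn

end Pool.Agent.R527.LV
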